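import Mathlib

/-!
# abc over number fields, exceptional set: definitions and statements of the independent lemmas

TEAM NF (leader helper17).  Main theorem: for every number field `K` and `lam`, the number of points
`P = (a : b : c)` with `a + b + c = 0`, `H_K(P) ≤ X` and `N_K(rad P) ≤ B * H_K(P) ^ lam` is
`O (X ^ (6/11 + max (lam - 1) 0 + ε))` (and `O (X ^ (4 lam / 7 + ε))` for `lam ≤ 9/10`).
-/

namespace Pool.Agent.W17.NF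

open NumberField Finset

/-- the radical of an ideal: product of its prime factors -/
noncomputable def radI {K : Type} [Field K] [NumberField K] (I : Ideal (𝓞 K)) : Ideal (𝓞 K) := by
  classical exact ∏ p ∈ (UniqueFactorizationMonoid.normalizedFactors I).toFinset, p

variable (K : Type) [Field K] [NumberField K]

/-- the degree -/
noncomputable abbrev dg : ℝ := (Module.finrank ℚ K : ℝ)

/-- NF-A4: number of ideals of norm at most `X` whose radical has norm at most `R` -/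
def StmtA4 : Prop :=
  ∀ ε : ℝ, 0 < ε → ∃ D : ℝ, 0 < D ∧ ∀ (X : ℕ) (R : ℝ), 1 ≤ X → 0 ≤ R → ∀ P : Finset (Ideal (𝓞 K)),
    (∀ I ∈ P, I ≠ ⊥ ∧ Ideal.absNorm I ≤ X ∧ (Ideal.absNorm (radI I) : ℝ) ≤ R) →
    (P.card : ℝ) ≤ D * (X : ℝ) ^ ε * R

/-- NF-TAU: number of divisors of an ideal -/
def StmtTau : Prop :=
  ∀ ε : ℝ, 0 < ε → ∃ D : ℝ, 0 < D ∧ ∀ I : Ideal (𝓞 K), I ≠ ⊥ → ∀ P : Finset (Ideal (𝓞 K)),
    (∀ J ∈ P, J ∣ I) → (P.card : ℝ) ≤ D * (Ideal.absNorm I : ℝ) ^ ε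

/-- NF-INV: the harmonic sum over ideals -/
def StmtInv : Prop :=
  ∀ ε : ℝ, 0 < ε → ∃ D : ℝ, 0 < D ∧ ∀ X : ℕ, 1 ≤ X → ∀ P : Finset (Ideal (𝓞 K)),
    (∀ I ∈ P, I ≠ ⊥ ∧ Ideal.absNorm I ≤ X) →
    ∑ I ∈ P, (1 : ℝ) / (Ideal.absNorm I : ℝ) ≤ D * (X : ℝ) ^ ε

/-- NF-ROOT: number of `k`-th roots of a unit modulo an ideal -/
def StmtRoot : Prop :=
  ∀ M : ℕ, ∀ ε : ℝ, 0 < ε → ∃ D : ℝ, 0 < D ∧ ∀ k : ℕ, 1 ≤ k → k ≤ M →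
    ∀ f : Ideal (𝓞 K), f ≠ ⊥ → ∀ (u : (𝓞 K ⧸ f)ˣ) (P : Finset (𝓞 K ⧸ f)ˣ),
    (∀ x ∈ P, x ^ k = u) → (P.card : ℝ) ≤ D * (Ideal.absNorm f : ℝ) ^ ε

/-- NF-BAL: units balancing a vector of positive reals -/
def StmtBal : Prop :=
  ∃ C : ℝ, 1 ≤ C ∧ ∀ y : InfinitePlace K → ℝ, (∀ w, 0 < y w) → ∃ u : (𝓞 K)ˣ, ∀ w,
    w (u : K) * y w ≤ C * (∏ w, y w ^ w.mult) ^ (1 / dg K) ∧
    (∏ w, y w ^ w.mult) ^ (1 / dg K) ≤ C * (w (u : K) * y w)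

/-- NF-UC: number of units in a box -/
def StmtUC : Prop :=
  ∀ ε : ℝ, 0 < ε → ∃ D : ℝ, 0 < D ∧ ∀ Y : ℝ, 1 ≤ Y → ∀ S : Finset (𝓞 K)ˣ,
    (∀ u ∈ S, ∀ w : InfinitePlace K, w (u : K) ≤ Y) → (S.card : ℝ) ≤ D * Y ^ ε

/-- NF-PACK: points of `K` in a box with differences of large norm -/
def StmtPack : Prop :=
  ∃ C : ℝ, 0 < C ∧ ∀ (Z : Finset K) (ρ : InfinitePlace K → ℝ) (s : ℝ), (∀ w, 0 < ρ w) → 0 < s →
    (∀ x ∈ Z, ∀ y ∈ Z, ∀ w, w (x - y) ≤ ρ w) →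
    (∀ x ∈ Z, ∀ y ∈ Z, x ≠ y → s ≤ ∏ w : InfinitePlace K, w (x - y) ^ w.mult) →
    (Z.card : ℝ) ≤ C * (1 + (∏ w, ρ w ^ w.mult) / s)

/-- NF-CLS: finitely many ideal classes -/
def StmtCls : Prop :=
  ∃ (h : ℕ) (cl : Ideal (𝓞 K) → Fin h), ∀ I J : Ideal (𝓞 K), I ≠ ⊥ → J ≠ ⊥ → cl I = cl J →
    ∃ a b : 𝓞 K, a ≠ 0 ∧ b ≠ 0 ∧ Ideal.span {a} * I = Ideal.span {b} * J

/-- NF-GEN: balanced generators for the ideals of one class, prime to `f` -/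
def StmtGen : Prop :=
  ∃ C : ℝ, 1 ≤ C ∧ ∀ f : Ideal (𝓞 K), f ≠ ⊥ → ∀ A : Finset (Ideal (𝓞 K)),
    (∀ I ∈ A, I ≠ ⊥ ∧ IsCoprime I f) →
    (∀ I ∈ A, ∀ J ∈ A, ∃ a b : 𝓞 K, a ≠ 0 ∧ b ≠ 0 ∧ Ideal.span {a} * I = Ideal.span {b} * J) →
    ∃ (x : Ideal (𝓞 K) → 𝓞 K) (g : Ideal (𝓞 K)), g ≠ ⊥ ∧ IsCoprime g f ∧
      (∀ I ∈ A, x I ≠ 0 ∧ Ideal.span {x I} = g * I) ∧
      ∀ I ∈ A, ∀ J ∈ A, ∀ w : InfinitePlace K, w (x I : K) ≤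
        C * ((Ideal.absNorm I : ℝ) / Ideal.absNorm J) ^ (1 / dg K) * w (x J : K)

/-- NF-TRI: integral balanced representatives of the points of the line `a + b + c = 0` -/
def StmtTri : Prop :=
  ∃ (S : Finset (Ideal (𝓞 K))) (C : ℝ), 1 ≤ C ∧ (∀ I ∈ S, I ≠ ⊥) ∧
    ∀ a b c : K, a ≠ 0 → b ≠ 0 → c ≠ 0 →
    ∃ (t : K) (a' b' c' : 𝓞 K), t ≠ 0 ∧ (a' : K) = t * a ∧ (b' : K) = t * b ∧ (c' : K) = t * c ∧
      Ideal.span {a', b', c'} ∈ S ∧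
      ∀ w : InfinitePlace K, max (w (a' : K)) (max (w (b' : K)) (w (c' : K))) ≤
        C * (∏ v : InfinitePlace K,
          (max (v (a' : K)) (max (v (b' : K)) (v (c' : K)))) ^ v.mult) ^ (1 / dg K)

end Pool.Agent.W17.NF
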